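import Pool.Agent.Lib_helper97.TRL.A20

/-!
# Full cancellation for almost all members of the thin family `n² + b²`, `b ≤ x^β`, `β > 1/3`
-/

set_option autoImplicit false

namespace Pool.Agent.Results.MP_892e4c_nt.FullCancellation

/-- The Liouville function extended to the integers: `λ(0) = 0` and, for `m ≠ 0`,
`λ(m) = (-1)^Ω(|m|)`, where `Ω` counts prime factors with multiplicity. -/
def liouville (m : ℤ) : ℤ :=
  if m = 0 then 0 else (-1) ^ (ArithmeticFunction.cardFactors m.natAbs)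

open Classical in
/-- Let `1/3 < β < 1` and `ε > 0`. For all large `x`, all but at most `ε x^β` of the integers
`1 ≤ b ≤ x^β` satisfy `|∑_{n ≤ x} λ(n² + b²)| ≤ ε x`. -/
theorem result (β : ℝ) (hβ : 1 / 3 < β) (hβ1 : β < 1) (ε : ℝ) (hε : 0 < ε) :
    ∃ x₀ : ℝ, ∀ x : ℝ, x₀ ≤ x →
      (((Finset.Icc 1 ⌊x ^ β⌋₊).filter (fun b : ℕ =>
        ¬ |((∑ n ∈ Finset.Icc 1 ⌊x⌋₊, liouville ((n : ℤ) ^ 2 + (b : ℤ) ^ 2) : ℤ) : ℝ)| ≤
          ε * x)).card : ℝ) ≤ ε * x ^ β := by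
  obtain ⟨x₀, h⟩ := Pool.Agent.TR.full_cancel β hβ hβ1 ε hε
  refine ⟨x₀, fun x hx => ?_⟩
  refine le_trans ?_ (h x hx)
  have hlam : ∀ n b : ℕ, 1 ≤ n →
      ((liouville ((n : ℤ) ^ 2 + (b : ℤ) ^ 2) : ℤ) : ℝ) = Pool.Agent.T2.lam (n ^ 2 + b ^ 2) := by
    intro n b hn
    unfold liouville Pool.Agent.T2.lam
    have h1 : ((n : ℤ) ^ 2 + (b : ℤ) ^ 2) = ((n ^ 2 + b ^ 2 : ℕ) : ℤ) := by push_cast; ring
    have h2 : n ^ 2 + b ^ 2 ≠ 0 := by positivity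
    rw [h1, Int.natAbs_natCast, if_neg (by exact_mod_cast h2), if_neg h2]
    push_cast
    rfl
  refine Nat.cast_le.2 (Finset.card_le_card fun b hb0 => ?_)
  rw [Finset.mem_filter] at hb0 ⊢
  refine ⟨hb0.1, ?_⟩
  have hS : ((∑ n ∈ Finset.Icc 1 ⌊x⌋₊, liouville ((n : ℤ) ^ 2 + (b : ℤ) ^ 2) : ℤ) : ℝ) =
      ∑ n ∈ Finset.Icc 1 ⌊x⌋₊, Pool.Agent.T2.lam (n ^ 2 + b ^ 2) := by
    push_cast
    exact Finset.sum_congr rfl fun n hn => hlam n b (Finset.mem_Icc.1 hn).1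
  rw [← hS]
  exact not_le.1 hb0.2

end Pool.Agent.Results.MP_892e4c_nt.FullCancellation
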