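import Mathlib
import Pool.Agent.Lib_helper97.AQ.PartI

/-!
# The Liouville function takes both values with positive density at every irreducible quadratic

For every irreducible quadratic polynomial `f` with integer coefficients there is `c > 0` such that
`|∑_{n ≤ x} λ(f(n))| ≤ (1 - c) x` for all large `x`: both signs have positive lower density. More
generally, for every completely multiplicative `h` with values `1` and `-1`, every value which
`h(|f(n)|)` takes at an integer `n` where `f(n)` has the sign of the leading coefficient is taken with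
positive lower density. So either `h(|f(n)|)` is constant on these `n`, or both values have
positive lower density.
-/

namespace Pool.Agent.Results.MP_892e4c_nt.IrreducibleQuadratics

open Polynomial

/-- The Liouville function extended to the integers: `λ(0) = 0` and, for `m ≠ 0`,
`λ(m) = (-1)^Ω(|m|)`, where `Ω` counts prime factors with multiplicity. -/
def liouville (m : ℤ) : ℤ :=
  if m = 0 then 0 else (-1) ^ (ArithmeticFunction.cardFactors m.natAbs)

/-- Completely multiplicative functions on the positive integers with values `1` and `-1`. -/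
structure SignFunction (h : ℕ → ℤ) : Prop where
  values : ∀ m : ℕ, 1 ≤ m → h m = 1 ∨ h m = -1
  mul : ∀ m n : ℕ, 1 ≤ m → 1 ≤ n → h (m * n) = h m * h n

/-- For every `f` in `ℤ[X]` of degree `2` which is irreducible over `ℚ`: (1) for every `SignFunction`
`h` and every integer `n₀` such that `f(n₀)` has the sign of the leading coefficient, the positive
integers `n` with `h(|f(n)|) = h(|f(n₀)|)` have positive lower density; (2) there is `c > 0` such that,
for all large `x`, each of the values `1` and `-1` is taken by `λ(f(n))` for at least `c x` of the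
`n ≤ x`; (3) there is `c > 0` with `|∑_{n ≤ x} λ(f(n))| ≤ (1 - c) x` for all large `x`. -/
theorem result :
    ∀ f : ℤ[X], f.natDegree = 2 → Irreducible (f.map (Int.castRingHom ℚ)) →
      (∀ h : ℕ → ℤ, SignFunction h → ∀ n₀ : ℤ, 0 < f.leadingCoeff * f.eval n₀ →
        ∃ c : ℝ, 0 < c ∧ ∃ x₀ : ℝ, ∀ x : ℝ, x₀ ≤ x →
          c * x ≤ (((Finset.Icc 1 ⌊x⌋₊).filter (fun n : ℕ =>
            h (f.eval (n : ℤ)).natAbs = h (f.eval n₀).natAbs)).card : ℝ)) ∧
      (∃ c : ℝ, 0 < c ∧ ∃ x₀ : ℝ, ∀ x : ℝ, x₀ ≤ x → ∀ s : ℤ, (s = 1 ∨ s = -1) →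
        c * x ≤ (((Finset.Icc 1 ⌊x⌋₊).filter (fun n : ℕ =>
            liouville (f.eval (n : ℤ)) = s)).card : ℝ)) ∧
      (∃ c : ℝ, 0 < c ∧ ∃ x₀ : ℝ, ∀ x : ℝ, x₀ ≤ x →
        |((∑ n ∈ Finset.Icc 1 ⌊x⌋₊, liouville (f.eval (n : ℤ)) : ℤ) : ℝ)| ≤ (1 - c) * x) := by
  intro f hdeg hirr
  have M := Pool.Agent.AQ.main_all
  obtain ⟨ha, hD, hev⟩ := Pool.Agent.AQ.fin_disc hdeg hirr
  have hlc : f.leadingCoeff = f.coeff 2 := by rw [leadingCoeff, hdeg]
  refine ⟨?_, ?_, ?_⟩
  · intro h hh n₀ h0
    rw [hlc, hev] at h0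
    obtain ⟨c, hc, x₀, hx⟩ := M (f.coeff 2) (f.coeff 1) (f.coeff 0) ha hD h
      ⟨fun m n hm hn => hh.mul m n hm hn, fun n hn => hh.values n hn⟩ n₀ h0
    refine ⟨c, hc, x₀, fun x hx' => ?_⟩
    simp only [hev]
    exact hx x hx'
  · obtain ⟨c, hc, x₀, hx⟩ := Pool.Agent.AQ.signs_of_main M hdeg hirr
    exact ⟨c, hc, x₀, hx⟩
  · obtain ⟨c, hc, x₀, hx⟩ := Pool.Agent.AQ.lam_of_main M hdeg hirr
    exact ⟨c, hc, x₀, hx⟩

end Pool.Agent.Results.MP_892e4c_nt.IrreducibleQuadratics
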