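import Pool.Agent.Lib_helper1.PSF.R3
import Pool.Agent.Lib_helper65.PAT.U

/-!
# Sign patterns of the Liouville function at almost all polynomials, in almost all windows

`λ(0) = 0`, `λ(m) = (-1)^Ω(|m|)`. `P = f + h`, `f` a given integer polynomial of degree `d`, `h` a
polynomial of degree at most `j` with coefficients of absolute value at most `H`; almost all means all but
an arbitrarily small proportion, of the `h` and of the windows (y, y + w], `y < x`.

Sign patterns: for distinct integers `b_1, ..., b_k` and `j ≥ 2k-1`, in the range `x^(2k-1) = o(H)`,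
`x^(d-1) = o(H x^j)`, for almost all `h`, each of the `2^k` sign patterns is taken by
(λ(P(n+b_1)), ..., λ(P(n+b_k))) with frequency `2^(-k) + o(1)` among the `n ≤ x` and, for every length
`C ≤ w ≤ x`, in almost all windows (y, y + w], and the sum over `n ≤ x` of `λ` at the polynomial
`P(X+b_1) ... P(X+b_k)` is `o(x)`.

General theorem: for nonzero integers `a_1, ..., a_s`, `j ≥ 2s+1` and GIVEN, arbitrary functions `F_n` of
absolute value at most one (chosen before `h`), the sum of `λ(P(n)) F_n(P(n+a_1), ..., P(n+a_s))` over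
`n ≤ x` is `o(x)`, and over almost all windows (y, y + w] it is `o(w)`, for almost all `h`, in the range
`x^(2s+1) = o(H)`, `x^(d-1) = o(H x^j)`.

If only the constant coefficient varies (`s = j = 0`), the first sum is `o(x)` for `d ≥ 2`,
`x^(d-1) = o(H)`. For fixed `A ≠ 0` and almost all `|a|, |b| ≤ H` the sum of `λ(A n² + a n + b)` over
`n ≤ x` is `o(x)`, for `x → ∞`, `x = o(H²)`.
-/

set_option autoImplicit false

namespace Pool.Agent.Results.MP_892e4c_nt.SignPatterns

/-- The Liouville function extended to the integers: `λ(0) = 0` and, for `m ≠ 0`,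
`λ(m) = (-1)^Ω(|m|)`, where `Ω` counts prime factors with multiplicity. -/
def liouville (m : ℤ) : ℤ :=
  if m = 0 then 0 else (-1) ^ (ArithmeticFunction.cardFactors m.natAbs)

/-- The polynomial `f + h_0 + h_1 X + ... + h_j X^j`. -/
noncomputable def poly (f : Polynomial ℤ) {j : ℕ} (h : Fin (j + 1) → ℤ) : Polynomial ℤ :=
  f + ∑ i, Polynomial.C (h i) * Polynomial.X ^ (i : ℕ)

/-- The (2H+1)^(j+1) integer vectors (h_0, ..., h_j) with entries of absolute value at most `H`. -/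
noncomputable def box (j H : ℕ) : Finset (Fin (j + 1) → ℤ) :=
  Fintype.piFinset fun _ : Fin (j + 1) => Finset.Icc (-(H : ℤ)) H

theorem poly_eval (f : Polynomial ℤ) {j : ℕ} (h : Fin (j + 1) → ℤ) (m : ℤ) :
    (poly f h).eval m = Pool.Agent.PAT.pz f h m := by
  unfold poly Pool.Agent.PAT.pz Pool.Agent.PAT.hv
  rw [Polynomial.eval_add, Polynomial.eval_finsetSum]
  congr 1
  refine Finset.sum_congr rfl fun i _ => ?_
  simp

theorem lz_eq (m : ℤ) : ((liouville m : ℤ) : ℝ) = Pool.Agent.PS.lz m := by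
  unfold liouville Pool.Agent.PS.lz Pool.Agent.PS.lam
  by_cases hm : m = 0
  · simp [hm]
  · rw [if_neg hm, if_neg (by simpa using hm)]
    push_cast
    rfl

theorem lz_eqC (m : ℤ) : ((liouville m : ℤ) : ℂ) = (Pool.Agent.PS.lz m : ℂ) := by
  rw [← lz_eq]
  push_cast
  rfl

open Classical in
theorem pc_eq (f : Polynomial ℤ) {j k : ℕ} (h : Fin (j + 1) → ℤ) (b : Fin k → ℤ) (σ : Fin k → ℤ)
    (S : Finset ℕ) :
    ((S.filter (fun n : ℕ => ∀ l, liouville ((poly f h).eval ((n : ℤ) + b l)) = σ l)).card : ℝ) =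
      Pool.Agent.PAT.pc f h b (fun l => (σ l : ℝ)) S := by
  unfold Pool.Agent.PAT.pc
  congr 2
  refine Finset.filter_congr fun n _ => ?_
  refine forall_congr' fun l => ?_
  rw [← lz_eq, poly_eval]
  exact Int.cast_inj.symm

open Classical in
theorem result (ε : ℝ) (hε : 0 < ε) :
    -- all sign patterns, up to `x` and in almost all windows, and the product of the shifts
    (∀ (f : Polynomial ℤ) (j k : ℕ) (b : Fin k → ℤ), Function.Injective b → 1 ≤ k →
      2 * k - 1 ≤ j →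
      ∃ C : ℕ, ∀ x H : ℕ, C ≤ x → C * x ^ (2 * k - 1) ≤ H →
      C * x ^ (f.natDegree - 1) ≤ H * x ^ j →
      (((box j H).filter (fun h =>
        (∃ σ : Fin k → ℤ, (∀ l, σ l = 1 ∨ σ l = -1) ∧
          ε * x < |(((Finset.Icc 1 x).filter (fun n : ℕ =>
            ∀ l, liouville ((poly f h).eval ((n : ℤ) + b l)) = σ l)).card : ℝ) - x / 2 ^ k|) ∨
        (∃ w : ℕ, C ≤ w ∧ w ≤ x ∧ ε * x < ((Finset.range x).filter (fun y =>
          ∃ σ : Fin k → ℤ, (∀ l, σ l = 1 ∨ σ l = -1) ∧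
            ε * w < |(((Finset.Ioc y (y + w)).filter (fun n : ℕ =>
              ∀ l, liouville ((poly f h).eval ((n : ℤ) + b l)) = σ l)).card : ℝ) -
                w / 2 ^ k|)).card) ∨
        ε * x < |((∑ n ∈ Finset.Icc 1 x, liouville
          ((∏ l, (poly f h).comp (Polynomial.X + Polynomial.C (b l))).eval (n : ℤ)) : ℤ) : ℝ)|)).card
            : ℝ) ≤ ε * (2 * H + 1) ^ (j + 1)) ∧
    -- `λ(P(n))` against every bounded function of `n` and of the values `P(n + a_l)`:
    -- the sum over `n ≤ x`, and the sums over almost all windows (y, y + w]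
    (∀ (f : Polynomial ℤ) (j s : ℕ) (a : Fin s → ℤ), (∀ l, a l ≠ 0) → 2 * s + 1 ≤ j →
      ∃ C : ℕ, ∀ x H : ℕ, C ≤ x → C * x ^ (2 * s + 1) ≤ H →
      C * x ^ (f.natDegree - 1) ≤ H * x ^ j →
      ∀ F : ℕ → (Fin s → ℤ) → ℂ, (∀ n v, ‖F n v‖ ≤ 1) →
      (((box j H).filter (fun h =>
        ε * x < ‖∑ n ∈ Finset.Icc 1 x, (liouville ((poly f h).eval (n : ℤ)) : ℂ) *
          F n (fun l => (poly f h).eval ((n : ℤ) + a l))‖ ∨
        ∃ w : ℕ, C ≤ w ∧ w ≤ x ∧ ε * x < ((Finset.range x).filter (fun y =>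
          ε * w < ‖∑ n ∈ Finset.Ioc y (y + w), (liouville ((poly f h).eval (n : ℤ)) : ℂ) *
            F n (fun l => (poly f h).eval ((n : ℤ) + a l))‖)).card)).card : ℝ) ≤
        ε * (2 * H + 1) ^ (j + 1)) ∧
    -- only the constant coefficient varies
    (∀ f : Polynomial ℤ, 2 ≤ f.natDegree →
      ∃ C : ℕ, ∀ x H : ℕ, C ≤ x → C * x ^ (f.natDegree - 1) ≤ H →
      ∀ g : ℕ → ℂ, (∀ n, ‖g n‖ ≤ 1) →
      (((Finset.Icc (-(H : ℤ)) H).filter (fun c : ℤ =>
        ε * x < ‖∑ n ∈ Finset.Icc 1 x, (liouville (f.eval (n : ℤ) + c) : ℂ) * g n‖)).card : ℝ) ≤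
        ε * (2 * H + 1)) ∧
    -- quadratics with fixed leading coefficient, in the range `x = o(H ^ 2)`
    (∀ A : ℤ, A ≠ 0 → ∃ (c : ℝ) (x₀ : ℕ), 0 < c ∧ ∀ x H : ℕ, x₀ ≤ x → (x : ℝ) ≤ c * (H : ℝ) ^ 2 →
      ((((Finset.Icc (-(H : ℤ)) H) ×ˢ (Finset.Icc (-(H : ℤ)) H)).filter (fun p : ℤ × ℤ =>
        ε * x < |((∑ n ∈ Finset.Icc 1 x, liouville (A * (n : ℤ) ^ 2 + p.1 * n + p.2) : ℤ) : ℝ)|)).card
          : ℝ) ≤ ε * (2 * H + 1) ^ 2) := by
  refine ⟨fun f j k b hb hk hj => ?_, fun f j s a ha hj => ?_, fun f hf => ?_, fun A hA => ?_⟩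
  · obtain ⟨s, rfl⟩ : ∃ s, k = s + 1 := ⟨k - 1, by omega⟩
    obtain ⟨C₂, x₂, h2⟩ := Pool.Agent.PAT.prod_excl f j s b hb (by omega) (ε / 2)
      (by positivity)
    obtain ⟨C₃, h3⟩ := Pool.Agent.PAT.g_pat f j (s + 1) b hb (by omega) (ε / 2)
      (by positivity)
    refine ⟨C₂ + x₂ + C₃, fun x H hx hH hC => ?_⟩
    have e0 : 2 * (s + 1) - 1 = 2 * s + 1 := by omega
    have g3 := h3 x H (by omega) ((Nat.mul_le_mul_right _ (by omega)).trans hH)
      ((Nat.mul_le_mul_right _ (by omega)).trans hC)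
    rw [e0] at hH
    have g2 := h2 x H (by omega) ((Nat.mul_le_mul_right _ (by omega)).trans hH)
      ((Nat.mul_le_mul_right _ (by omega)).trans hC)
    have hx0 : (0 : ℝ) ≤ ε * x := by positivity
    have hcast : ∀ σ : Fin (s + 1) → ℤ, (∀ l, σ l = 1 ∨ σ l = -1) →
        ∀ l, ((σ l : ℤ) : ℝ) = 1 ∨ ((σ l : ℤ) : ℝ) = -1 := by
      intro σ hσ l
      rcases hσ l with h5 | h5
      · left; rw [h5]; norm_num
      · right; rw [h5]; norm_num
    refine (Nat.cast_le.2 ((Finset.card_le_card ?_).trans (Finset.card_union_le _ _))).trans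
      ((Nat.cast_add _ _).le.trans ((add_le_add g2 g3).trans (le_of_eq ?_)))
    · intro h hh
      rw [Finset.mem_filter] at hh
      have hb : h ∈ Pool.Agent.PS.bx j H := hh.1
      rw [Finset.mem_union, Finset.mem_filter, Finset.mem_filter]
      rcases hh.2 with ⟨σ, hσ, h4⟩ | ⟨w, hw1, hw2, h4⟩ | h4
      · refine Or.inr ⟨hb, Or.inl ⟨fun l => (σ l : ℝ), hcast σ hσ, ?_⟩⟩
        rw [pc_eq] at h4
        linarith
      · refine Or.inr ⟨hb, Or.inr ⟨w, by omega, hw2, lt_of_le_of_lt (by linarith)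
          (h4.trans_le (Nat.cast_le.2 (Finset.card_le_card ?_)))⟩⟩
        intro y hy
        rw [Finset.mem_filter] at hy ⊢
        obtain ⟨hy1, σ, hσ, h5⟩ := hy
        rw [pc_eq] at h5
        have hw0 : (0 : ℝ) ≤ ε * w := by positivity
        exact ⟨hy1, fun l => (σ l : ℝ), hcast σ hσ, lt_of_le_of_lt (by linarith) h5⟩
      · refine Or.inl ⟨hb, ?_⟩
        have e2 : ((∑ n ∈ Finset.Icc 1 x, liouville
            ((∏ l, (poly f h).comp (Polynomial.X + Polynomial.C (b l))).eval (n : ℤ)) : ℤ) : ℝ) =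
              ∑ n ∈ Finset.Icc 1 x,
                Pool.Agent.PS.lz (∏ i, Pool.Agent.PAT.pz f h ((n : ℤ) + b i)) := by
          rw [Int.cast_sum]
          refine Finset.sum_congr rfl fun n _ => ?_
          rw [lz_eq, Polynomial.eval_prod]
          congr 1
          refine Finset.prod_congr rfl fun l _ => ?_
          rw [Polynomial.eval_comp, poly_eval]
          simp
        rw [e2] at h4
        linarith
    · ring
  · obtain ⟨C, h2⟩ := Pool.Agent.PAT.g_excl f j s a ha hj ε hε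
    refine ⟨C, fun x H hx hH hC F hF => ?_⟩
    have g2 := h2 x H hx hH hC
      (fun n v => F n (fun l => f.eval ((n : ℤ) + a l) + v l)) (fun n v => hF _ _)
    simp only [lz_eqC, poly_eval]
    exact g2
  · obtain ⟨C, x₀, h1⟩ := Pool.Agent.PS.b_gen f hf (ε ^ 3) (by positivity)
    refine ⟨C + x₀ + 1, fun x H hx hC g hg => ?_⟩
    have hx1 : 1 ≤ x := by omega
    have hxR : (0 : ℝ) < x := by exact_mod_cast hx1
    have h2 := h1 x H (by omega) ((Nat.mul_le_mul_right _ (by omega)).trans hC) g hg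
    have e1 : (((Finset.Icc (-(H : ℤ)) H).filter (fun c : ℤ =>
        ε * x < ‖∑ n ∈ Finset.Icc 1 x, (liouville (f.eval (n : ℤ) + c) : ℂ) * g n‖))) =
        (Pool.Agent.PS.Iz H).filter (fun c => ε ^ 2 < ‖Pool.Agent.PS.Fg f g x c‖ ^ 2) := by
      unfold Pool.Agent.PS.Iz
      refine Finset.filter_congr fun c _ => ?_
      have e2 : ∑ n ∈ Finset.Icc 1 x, (liouville (f.eval (n : ℤ) + c) : ℂ) * g n =
          Pool.Agent.PS.Fg f g x c * x := by
        unfold Pool.Agent.PS.Fg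
        rw [div_mul_cancel₀ _ (by exact_mod_cast hxR.ne')]
        refine Finset.sum_congr rfl fun n _ => ?_
        rw [lz_eqC, mul_comm]
      rw [e2, norm_mul, Complex.norm_natCast, mul_lt_mul_iff_left₀ hxR,
        sq_lt_sq₀ hε.le (norm_nonneg _)]
    rw [e1]
    exact Pool.Agent.PS.fin_markov (Pool.Agent.PS.Iz H)
      (fun c => ‖Pool.Agent.PS.Fg f g x c‖ ^ 2) (fun _ _ => by positivity)
      (c := ε ^ 2) (s := ε * (2 * H + 1)) (by positivity)
      (h2.trans (le_of_eq (by ring)))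
  · obtain ⟨c, x₀, hc, h⟩ := Pool.Agent.PS.quadA_main A hA ε hε
    refine ⟨c, x₀, hc, fun x H hx hH => ?_⟩
    refine le_trans (le_of_eq ?_) (h x H hx hH)
    push_cast
    simp only [lz_eq]
    congr!

end Pool.Agent.Results.MP_892e4c_nt.SignPatterns
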