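import Mathlib
import Pool.Agent.Lib_helper11.CUB4.Transfer2

/-!
# Unavoidable tuples of irreducible polynomials for the Liouville function

A tuple of irreducible polynomials is called unavoidable if, at every scale, the Liouville function
takes both signs along at least `l` of its members. For every prime `p` (its role is explained in the
definition of `Sign`), each of the families of tuples of irreducible polynomials below contains an
unavoidable tuple. Here `f_t` denotes the minimal polynomial over `ℤ` of an algebraic number `t`.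
-/

namespace Pool.Agent.Results.MP_892e4c_nt.UnavoidableTuples

open Polynomial

/-- The Liouville function extended to the integers: `λ(0) = 0` and, for `m ≠ 0`,
`λ(m) = (-1)^Ω(|m|)`, where `Ω` counts prime factors with multiplicity. -/
def liouville (m : ℤ) : ℤ :=
  if m = 0 then 0 else (-1) ^ (ArithmeticFunction.cardFactors m.natAbs)

/-- `h` is the Liouville function, or a completely multiplicative function on the positive integers
with values `1` and `-1` such that `h(p) = -1`. -/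
def Sign (p : ℕ) (h : ℕ → ℤ) : Prop :=
  (∀ m : ℕ, h m = liouville m) ∨
  ((∀ m : ℕ, 1 ≤ m → h m = 1 ∨ h m = -1) ∧
    (∀ m n : ℕ, 1 ≤ m → 1 ≤ n → h (m * n) = h m * h n) ∧ h p = -1)

/-- Each sign of `h(|f(n)|)` occurs for at least `(x / 4)^b` of the `n` in `[x, X]`. -/
def Often (b : ℕ) (h : ℕ → ℤ) (f : ℤ[X]) (x X : ℕ) : Prop :=
  ∀ s : ℤ, (s = 1 ∨ s = -1) → x ^ b ≤ 4 ^ b * ((Finset.Icc x X).filter (fun n : ℕ =>
    h (f.eval (n : ℤ)).natAbs = s)).card

/-- `T` is unavoidable for `p`. Its members are `k` irreducible polynomials of degree `d`; and for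
some `C`, for all functions `h` in `Sign p` and all `x ≥ 1`, for at least `l` of the members `f` of
`T` each sign of `h(|f(n)|)` occurs for at least `(x / 4)^b` of the `n` in `[x, C x^a]`. -/
def Unavoidable (p d k l a b : ℕ) (T : Fin k → ℤ[X]) : Prop :=
  (∀ i, Irreducible (T i) ∧ (T i).natDegree = d) ∧
  ∃ C : ℕ, ∀ h : ℕ → ℤ, Sign p h → ∀ x : ℕ, 1 ≤ x →
    l ≤ {i : Fin k | Often b h (T i) x (C * x ^ a)}.ncard

/-- The families of tuples of polynomials, with their degree `d`, their length `k`, the number `l` of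
good members and the exponents `a`, `b`. -/
inductive Family (p : ℕ) : (d k l a b : ℕ) → Set (Fin k → ℤ[X]) → Prop
  /-- (1) `f_{vt}`, for `t` of degree three with `ℚ(t)` Galois. -/
  | cyclic (t : ℂ) (a b V : ℕ) : (minpoly ℚ t).natDegree = 3 →
      IsGalois ℚ (IntermediateField.adjoin ℚ {t}) → (a = 2 ∧ b = 0 ∨ a = 4 ∧ b = 1) → 1 ≤ V →
      Family p 3 1 1 a b {T | ∃ v : ℕ, 1 ≤ v ∧ V ∣ v ∧ T = ![minpoly ℤ (v * t)]}
  /-- (2) `f_{vt}` and `f_{vs}`, for `t` of degree three and `s = α t^2 + β t + γ`, `α > 0`. -/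
  | pair (t : ℂ) (α β γ : ℚ) (V : ℕ) : (minpoly ℚ t).natDegree = 3 → 0 < α → 1 ≤ V →
      Family p 3 2 1 4 1 {T | ∃ v : ℕ, 1 ≤ v ∧ V ∣ v ∧
        T = ![minpoly ℤ (v * t), minpoly ℤ (v * (α * t ^ 2 + β * t + γ))]}
  /-- (3) `f_{vz_1}, …, f_{vz_{k+2}}`, for elements `z_i` of degree three of a cubic field `ℚ(t)` such
  that `z_i` is not `a z_j + b` with `a > 0`, for `i ≠ j`. All but at most two of them are good. -/
  | many (k : ℕ) (t : ℂ) (z : Fin (k + 2) → ℂ) (V : ℕ) : (minpoly ℚ t).natDegree = 3 →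
      (∀ i, z i ∈ IntermediateField.adjoin ℚ {t} ∧ (minpoly ℚ (z i)).natDegree = 3) →
      (∀ i j, i ≠ j → ∀ a b : ℚ, 0 < a → z i ≠ a * z j + b) → 1 ≤ V →
      Family p 3 (k + 2) k 4 1 {T | ∃ v : ℕ, 1 ≤ v ∧ V ∣ v ∧ T = fun i => minpoly ℤ (v * z i)}
  /-- (4) `f` and `f_{v (u - r)^2}`, for an irreducible cubic polynomial `f` and a root `u` of
  `f`. -/
  | cubic (f : ℤ[X]) (u : ℂ) (V : ℕ) : Irreducible f → f.natDegree = 3 → aeval u f = 0 → 1 ≤ V →
      Family p 3 2 1 4 0 {T | ∃ v : ℕ, 1 ≤ v ∧ V ∣ v ∧ ∃ r : ℚ, (f.Monic → r = 0) ∧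
        T = ![f, minpoly ℤ (v * (u - r) ^ 2)]}
  /-- (5) `f_{vz_1}, …, f_{vz_14}`, for elements `z_i`, close to `y`, of `ℚ(y)`, `y` of degree
  five. -/
  | quintic (y : ℂ) (ε : ℝ) (V : ℕ) : (minpoly ℚ y).natDegree = 5 → 0 < ε → 1 ≤ V →
      Family p 5 14 1 2 0 {T | ∃ v : ℕ, 1 ≤ v ∧ V ∣ v ∧ ∃ P : Fin 14 → ℚ[X],
        (∀ i, ∀ w : ℂ, aeval w (minpoly ℚ y) = 0 → ‖aeval w (P i) - w‖ < ε) ∧
        T = fun i => minpoly ℤ (v * aeval y (P i))}
  /-- (6) Polynomials of an odd degree `d`. -/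
  | odd (d : ℕ) : Odd d → 3 ≤ d → (d = 5 ∨ (∃ j : ℕ, d = 2 ^ j - 1) ∨ (p = 2 ∧ d ≤ 31 ∧ d ≠ 17)) →
      Family p d (2 * Nat.log 2 d + 2) 1 2 1 Set.univ
  /-- (7) `g_1(X^2), …, g_{9j}(X^2)` of degree `2 (2 ^ j - 1)`. -/
  | even (j : ℕ) : 2 ≤ j → Family p (2 * (2 ^ j - 1)) (9 * j) 1 2 0
      {T | ∃ g : Fin (9 * j) → ℤ[X], T = fun i => (g i).comp (X ^ 2)}

theorem Sign.cm {p : ℕ} (hp : p.Prime) {h : ℕ → ℤ} (hh : Sign p h) :
    Pool.Agent.Lib_helper11.CUB.CM h ∧ h p = -1 := by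
  rcases hh with hh | ⟨h1, h2, h3⟩
  · refine ⟨⟨?_, ?_⟩, ?_⟩
    · intro m hm
      have : (m : ℤ) ≠ 0 := by exact_mod_cast (by omega : m ≠ 0)
      rw [hh]
      simp only [liouville, if_neg this]
      exact neg_one_pow_eq_or ℤ _
    · intro m n hm hn
      have h1 : (m : ℤ) ≠ 0 := by exact_mod_cast (by omega : m ≠ 0)
      have h2 : (n : ℤ) ≠ 0 := by exact_mod_cast (by omega : n ≠ 0)
      have h3 : ((m * n : ℕ) : ℤ) ≠ 0 := by push_cast; exact mul_ne_zero h1 h2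
      rw [hh, hh, hh]
      simp only [liouville, if_neg h1, if_neg h2, if_neg h3, Int.natAbs_natCast]
      rw [ArithmeticFunction.cardFactors_mul (by omega) (by omega), pow_add]
    · have : (p : ℤ) ≠ 0 := by exact_mod_cast hp.ne_zero
      rw [hh]
      simp only [liouville, if_neg this, Int.natAbs_natCast,
        ArithmeticFunction.cardFactors_apply_prime hp]
      norm_num
  · exact ⟨⟨h1, h2⟩, h3⟩

theorem unavoidable_of {p d k l a b : ℕ} {T : Fin k → ℤ[X]} (hp : p.Prime)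
    (H : Pool.Agent.Lib_helper11.CUB4.Unav p d k l a b T) : Unavoidable p d k l a b T := by
  obtain ⟨h1, C, hC⟩ := H
  exact ⟨h1, C, fun h hh x hx => hC h (hh.cm hp).1 (hh.cm hp).2 x hx⟩

/-- For every prime `p`, each of the families contains a tuple which is unavoidable for `p`. -/
theorem result : ∀ p : ℕ, p.Prime → ∀ (d k l a b : ℕ) (𝓕 : Set (Fin k → ℤ[X])),
    Family p d k l a b 𝓕 → ∃ T ∈ 𝓕, Unavoidable p d k l a b T := by
  intro p hp d k l a b 𝓕 hF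
  cases hF with
  | cyclic t a b V hd hgal hab hV =>
    rcases hab with ⟨rfl, rfl⟩ | ⟨rfl, rfl⟩
    · obtain ⟨v, h1, h2, H⟩ := Pool.Agent.Lib_helper11.CUB4.unav_cyclic hp hd hgal hV
      exact ⟨_, ⟨v, h1, h2, rfl⟩, unavoidable_of hp H⟩
    · obtain ⟨v, h1, h2, H⟩ := Pool.Agent.Lib_helper11.CUB4.unav_cyclic_power hp hd hgal hV
      exact ⟨_, ⟨v, h1, h2, rfl⟩, unavoidable_of hp H⟩
  | pair t α β γ V hd hα hV =>
    obtain ⟨v, h1, h2, H⟩ := Pool.Agent.Lib_helper11.CUB4.unav_pair hp hd hα hV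
    exact ⟨_, ⟨v, h1, h2, rfl⟩, unavoidable_of hp H⟩
  | many k t z V hd hz hne hV =>
    obtain ⟨v, h1, h2, H⟩ := Pool.Agent.Lib_helper11.CUB4.unav_many hp hd hz hne hV
    exact ⟨_, ⟨v, h1, h2, rfl⟩, unavoidable_of hp H⟩
  | cubic f u V hf hfd hu hV =>
    obtain ⟨v, h1, h2, r, hr, H⟩ := Pool.Agent.Lib_helper11.CUB4.unav_cubic hp hf hfd hu hV
    exact ⟨_, ⟨v, h1, h2, r, hr, rfl⟩, unavoidable_of hp H⟩
  | quintic y ε V hd hε hV =>
    obtain ⟨v, h1, h2, P, hP, H⟩ := Pool.Agent.Lib_helper11.CUB4.unav_quintic hp hd hε hV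
    exact ⟨_, ⟨v, h1, h2, P, hP, rfl⟩, unavoidable_of hp H⟩
  | odd d hodd hd3 hd =>
    obtain ⟨T, H⟩ := Pool.Agent.Lib_helper11.CUB4.unav_odd hp hodd hd3 hd
    exact ⟨T, Set.mem_univ _, unavoidable_of hp H⟩
  | even j hj =>
    obtain ⟨g, H⟩ := Pool.Agent.Lib_helper11.CUB4.unav_even hp hj
    exact ⟨_, ⟨g, rfl⟩, unavoidable_of hp H⟩

end Pool.Agent.Results.MP_892e4c_nt.UnavoidableTuples
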